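import Mathlib

/-!
Cash thresholds of interval subtraction games: closed form and quasi-periodicity.
-/

namespace Pool.Agent.Results.MP_88cfb8_co.QuasiPeriodic

/-- `WI L M n`: Player I (the player to move) wins the subtraction game on `{L, …, M}` from `n`
stones, i.e. `W_A(n) = I`. -/
def WI (L M : ℕ) (n : ℕ) : Prop :=
  ∃ a, ∃ _ : 0 < a ∧ L ≤ a ∧ a ≤ M ∧ a ≤ n, ¬ WI L M (n - a)
termination_by n
decreasing_by omega

open Classical in
/-- `f L M n = (f_I(n), f_II(n))`, by the recursion of the problem, for `A = {L, …, M}`. -/
noncomputable def f (L M : ℕ) (n : ℕ) : ℕ × ℕ :=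
  if n < L then (0, 0) else
    let g2 : ℕ := sSup {x | ∃ a, ∃ _ : 0 < a ∧ L ≤ a ∧ a ≤ M ∧ a ≤ n, x = (f L M (n - a)).1}
    (if WI L M n then
      sInf {x | ∃ a, ∃ _ : 0 < a ∧ L ≤ a ∧ a ≤ M ∧ a ≤ n,
        ¬ WI L M (n - a) ∧ x = (f L M (n - a)).2 + a}
    else
      sInf {x | ∃ a, ∃ _ : 0 < a ∧ L ≤ a ∧ a ≤ M ∧ a ≤ n,
        (f L M (n - a)).1 = g2 ∧ x = (f L M (n - a)).2 + a}, g2)
termination_by n
decreasing_by all_goals omega

/-- Closed form of `f_I(k(L+M) + r)`. -/
def F1 (L M k r : ℕ) : ℕ :=
  if r + k * (M - L) < L then k * L else max ((k + 1) * L) (k * M + r + 1 - L)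

/-- Closed form of `f_II(k(L+M) + r)`. -/
def F2 (L M k r : ℕ) : ℕ :=
  if r < L then max (k * L) (k * M + r + 1 - L)
  else if r < M then max (k * M) (F1 L M k (r - L)) else F1 L M k (r - L)

section

variable {L M : ℕ}

theorem WI_iff (n : ℕ) : WI L M n ↔ ∃ a, (0 < a ∧ L ≤ a ∧ a ≤ M ∧ a ≤ n) ∧ ¬ WI L M (n - a) := by
  rw [WI]
  simp only [exists_prop]

/-- The outcome of the subtraction game. -/
theorem WI_spec (hL : 1 ≤ L) (hLM : L ≤ M) (n : ℕ) :
    ∀ k r, n = k * (L + M) + r → r < L + M → (WI L M n ↔ L ≤ r) := by
  induction n using Nat.strong_induction_on with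
  | _ n ih =>
    intro k r hn hr
    rw [WI_iff]
    constructor
    · rintro ⟨a, ⟨h0, h1, h2, h3⟩, h4⟩
      by_contra hlt
      push Not at hlt
      -- `n - a` lies in the previous period, with residue at least `L`
      obtain ⟨j, rfl⟩ : ∃ j, k = j + 1 := by
        rcases k with _ | j
        · omega
        · exact ⟨j, rfl⟩
      apply h4
      rw [ih (n - a) (by omega) j (L + M + r - a) (by rw [hn, Nat.succ_mul]; omega) (by omega)]
      omega
    · intro hLr
      refine ⟨if r < 2 * L then L else min r M, ?_, ?_⟩
      · split_ifs <;> omega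
      · split_ifs with h
        · rw [ih (n - L) (by omega) k (r - L) (by omega) (by omega)]
          omega
        · rw [ih (n - min r M) (by omega) k (r - min r M) (by omega) (by omega)]
          omega

theorem f_spec (hL : 1 ≤ L) (hLM : L ≤ M) (n : ℕ) :
    ∀ k r, n = k * (L + M) + r → r < L + M → f L M n = (F1 L M k r, F2 L M k r) := by
  classical
  induction n using Nat.strong_induction_on with
  | _ n ih =>
    intro k r hn hr
    obtain ⟨δ, rfl⟩ : ∃ δ, M = L + δ := ⟨M - L, by omega⟩
    have hδ : L + δ - L = δ := by omega
    by_cases hnL : n < L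
    · -- the first case
      have hk : k = 0 := by
        rcases k with _ | j
        · rfl
        · rw [Nat.succ_mul] at hn; omega
      subst hk
      rw [f, if_pos hnL]
      simp only [F1, F2, zero_mul]
      rw [if_pos (by omega), if_pos (by omega)]
      simp only [Prod.mk.injEq, true_and]
      omega
    · -- values at the earlier positions
      have hval : ∀ a, 0 < a → L ≤ a → a ≤ L + δ → a ≤ n →
          (a ≤ r → f L (L + δ) (n - a) = (F1 L (L + δ) k (r - a), F2 L (L + δ) k (r - a))) ∧
          (r < a → ∃ j, k = j + 1 ∧ f L (L + δ) (n - a) =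
            (F1 L (L + δ) j (L + (L + δ) + r - a), F2 L (L + δ) j (L + (L + δ) + r - a))) := by
        intro a h0 h1 h2 h3
        constructor
        · intro har
          exact ih (n - a) (by omega) k (r - a) (by omega) (by omega)
        · intro har
          obtain ⟨j, rfl⟩ : ∃ j, k = j + 1 := by
            rcases k with _ | j
            · omega
            · exact ⟨j, rfl⟩
          refine ⟨j, rfl, ?_⟩
          exact ih (n - a) (by omega) j _ (by rw [hn, Nat.succ_mul]; omega) (by omega)
      -- the value of `f_II`
      have h2 : IsGreatest {x | ∃ a, ∃ _ : 0 < a ∧ L ≤ a ∧ a ≤ L + δ ∧ a ≤ n,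
          x = (f L (L + δ) (n - a)).1} (F2 L (L + δ) k r) := by
        constructor
        · by_cases hrL : r < L
          · -- previous period, `a = L`
            refine ⟨L, ⟨by omega, le_rfl, by omega, by omega⟩, ?_⟩
            obtain ⟨j, rfl, hj⟩ := (hval L (by omega) le_rfl (by omega) (by omega)).2 hrL
            rw [hj]
            simp only [F1, F2, hδ]
            rw [if_pos hrL, if_neg (by omega)]
            have e1 : (j + 1) * (L + δ) = j * (L + δ) + (L + δ) := Nat.succ_mul _ _
            congr 1
            omega
          · by_cases hrM : r < L + δ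
            · -- compare with the end of the previous period
              by_cases hcmp : k * (L + δ) ≤ F1 L (L + δ) k (r - L)
              · refine ⟨L, ⟨by omega, le_rfl, by omega, by omega⟩, ?_⟩
                rw [(hval L (by omega) le_rfl (by omega) (by omega)).1 (by omega)]
                simp only [F2]
                rw [if_neg hrL, if_pos hrM, max_eq_right hcmp]
              · push Not at hcmp
                have hk : k ≠ 0 := by
                  rintro rfl
                  simp at hcmp
                have hPn : L + (L + δ) ≤ k * (L + (L + δ)) := Nat.le_mul_of_pos_left _ (by omega)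
                refine ⟨r + 1, ⟨by omega, by omega, by omega, by omega⟩, ?_⟩
                obtain ⟨j, rfl, hj⟩ := (hval (r + 1) (by omega) (by omega) (by omega)
                  (by omega)).2 (by omega)
                rw [hj]
                simp only [F2]
                rw [if_neg hrL, if_pos hrM, max_eq_left hcmp.le]
                simp only [F1, hδ]
                rw [if_neg (by omega)]
                have e1 : (j + 1) * (L + δ) = j * (L + δ) + (L + δ) := Nat.succ_mul _ _
                have e2 : (j + 1) * L = j * L + L := Nat.succ_mul _ _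
                have e3 : j * (L + δ) = j * L + j * δ := Nat.mul_add _ _ _
                omega
            · refine ⟨L, ⟨by omega, le_rfl, by omega, by omega⟩, ?_⟩
              rw [(hval L (by omega) le_rfl (by omega) (by omega)).1 (by omega)]
              simp only [F2]
              rw [if_neg hrL, if_neg hrM]
        · rintro x ⟨a, ⟨h0, h1, h2, h3⟩, rfl⟩
          by_cases har : a ≤ r
          · rw [(hval a h0 h1 h2 h3).1 har]
            simp only [F2, F1, hδ]
            have e3 : k * (L + δ) = k * L + k * δ := Nat.mul_add _ _ _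
            have e2 : (k + 1) * L = k * L + L := Nat.succ_mul _ _
            rw [if_neg (by omega : ¬ r < L)]
            split_ifs <;> omega
          · push Not at har
            obtain ⟨j, rfl, hj⟩ := (hval a h0 h1 h2 h3).2 har
            rw [hj]
            simp only [F2, F1, hδ]
            have e1 : (j + 1) * (L + δ) = j * (L + δ) + (L + δ) := Nat.succ_mul _ _
            have e2 : (j + 1) * L = j * L + L := Nat.succ_mul _ _
            have e3 : j * (L + δ) = j * L + j * δ := Nat.mul_add _ _ _
            have e4 : (j + 1) * δ = j * δ + δ := Nat.succ_mul _ _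
            have e5 : (j + 1 + 1) * L = j * L + L + L := by ring
            split_ifs <;> omega
      -- unfold
      have hf : f L (L + δ) n = (if WI L (L + δ) n then
          sInf {x | ∃ a, ∃ _ : 0 < a ∧ L ≤ a ∧ a ≤ L + δ ∧ a ≤ n,
            ¬ WI L (L + δ) (n - a) ∧ x = (f L (L + δ) (n - a)).2 + a}
        else sInf {x | ∃ a, ∃ _ : 0 < a ∧ L ≤ a ∧ a ≤ L + δ ∧ a ≤ n,
            (f L (L + δ) (n - a)).1 = F2 L (L + δ) k r ∧ x = (f L (L + δ) (n - a)).2 + a},
        F2 L (L + δ) k r) := by
        rw [f, if_neg hnL]
        simp only [h2.csSup_eq]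
      rw [hf]
      congr 1
      by_cases hrL : r < L
      · -- `W = II`
        have hW : ¬ WI L (L + δ) n := by
          rw [WI_spec hL (by omega) n k r hn hr]; omega
        rw [if_neg hW]
        obtain ⟨j, rfl⟩ : ∃ j, k = j + 1 := by
          rcases k with _ | j
          · omega
          · exact ⟨j, rfl⟩
        have e1 : (j + 1) * (L + δ) = j * (L + δ) + (L + δ) := Nat.succ_mul _ _
        have e2 : (j + 1) * L = j * L + L := Nat.succ_mul _ _
        have e3 : j * (L + δ) = j * L + j * δ := Nat.mul_add _ _ _
        have e4 : (j + 1) * δ = j * δ + δ := Nat.succ_mul _ _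
        have e5 : (j + 1 + 1) * L = j * L + L + L := by ring
        apply IsLeast.csInf_eq
        constructor
        · -- `a = L`
          refine ⟨L, ⟨by omega, le_rfl, by omega, by omega⟩, ?_⟩
          obtain ⟨j', hj', hj⟩ := (hval L (by omega) le_rfl (by omega) (by omega)).2 hrL
          obtain rfl : j' = j := by omega
          rw [hj]
          simp only [F2, F1, hδ]
          constructor
          · rw [if_pos hrL, if_neg (by omega)]; omega
          · rw [if_neg (by omega : ¬ L + (L + δ) + r - L < L),
              if_neg (by omega : ¬ L + (L + δ) + r - L < L + δ)]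
            split_ifs <;> omega
        · rintro x ⟨a, ⟨h0, h1, h2', h3⟩, h4, rfl⟩
          obtain ⟨j', hj', hj⟩ := (hval a h0 h1 h2' h3).2 (by omega)
          obtain rfl : j' = j := by omega
          rw [hj] at h4 ⊢
          simp only [F2, F1, hδ] at h4 ⊢
          rw [if_pos hrL] at h4
          split_ifs at h4 ⊢ <;> omega
      · -- `W = I`
        have hW : WI L (L + δ) n := by
          rw [WI_spec hL (by omega) n k r hn hr]; omega
        rw [if_pos hW]
        have e3 : k * (L + δ) = k * L + k * δ := Nat.mul_add _ _ _
        have e2 : (k + 1) * L = k * L + L := Nat.succ_mul _ _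
        apply IsLeast.csInf_eq
        constructor
        · refine ⟨max L (r - (L - 1)), ⟨by omega, by omega, by omega, by omega⟩, ?_⟩
          constructor
          · rw [WI_spec hL (by omega) _ k (r - max L (r - (L - 1))) (by omega) (by omega)]
            omega
          · rw [(hval (max L (r - (L - 1))) (by omega) (by omega) (by omega) (by omega)).1
              (by omega)]
            simp only [F2, F1, hδ]
            rw [if_neg (by omega), if_pos (by omega)]
            omega
        · rintro x ⟨a, ⟨h0, h1, h2', h3⟩, h4, rfl⟩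
          by_cases har : a ≤ r
          · rw [WI_spec hL (by omega) _ k (r - a) (by omega) (by omega)] at h4
            rw [(hval a h0 h1 h2' h3).1 har]
            simp only [F2, F1, hδ]
            rw [if_neg (by omega : ¬ r + k * δ < L), if_pos (by omega : r - a < L)]
            omega
          · push Not at har
            obtain ⟨j, rfl, hj⟩ := (hval a h0 h1 h2' h3).2 har
            exfalso
            apply h4
            rw [WI_spec hL (by omega) _ j (L + (L + δ) + r - a)
              (by rw [hn, Nat.succ_mul]; omega) (by omega)]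
            omega

end

/-- For all `1 ≤ L ≤ M` there is `Θ` with `f_I(n + L + M) = f_I(n) + M` and
`f_II(n + L + M) = f_II(n) + M` for all `n ≥ Θ`. -/
theorem result (L M : ℕ) (hL : 1 ≤ L) (hLM : L ≤ M) : ∃ Θ : ℕ, ∀ n, Θ ≤ n →
    (f L M (n + L + M)).1 = (f L M n).1 + M ∧ (f L M (n + L + M)).2 = (f L M n).2 + M := by
  obtain ⟨δ, rfl⟩ : ∃ δ, M = L + δ := ⟨M - L, by omega⟩
  have hδ : L + δ - L = δ := by omega
  refine ⟨(2 * L) * (L + (L + δ)), fun n hn => ?_⟩
  set P := L + (L + δ) with hP
  have hPpos : 0 < P := by omega
  set k := n / P with hk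
  set r := n % P with hr
  have hrP : r < P := Nat.mod_lt _ hPpos
  have hnkr : n = k * P + r := by
    rw [hk, hr, mul_comm]; exact (Nat.div_add_mod n P).symm
  have hk2 : 2 * L ≤ k := by
    rw [hk, Nat.le_div_iff_mul_le hPpos]; exact hn
  have h1 := f_spec hL hLM n k r hnkr hrP
  have hn2 : n + L + (L + δ) = (k + 1) * P + r := by
    rw [Nat.succ_mul]; omega
  have h2 := f_spec hL hLM (n + L + (L + δ)) (k + 1) r hn2 hrP
  rw [h1, h2]
  have e1 : (k + 1) * (L + δ) = k * (L + δ) + (L + δ) := Nat.succ_mul _ _
  have e2 : (k + 1) * L = k * L + L := Nat.succ_mul _ _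
  have e3 : k * (L + δ) = k * L + k * δ := Nat.mul_add _ _ _
  have e4 : (k + 1) * δ = k * δ + δ := Nat.succ_mul _ _
  have e5 : (k + 1 + 1) * L = k * L + L + L := by ring
  -- either `δ = 0` or `k * δ` is large
  have hcase : δ = 0 ∨ 2 * L ≤ k * δ := by
    rcases Nat.eq_zero_or_pos δ with h | h
    · exact Or.inl h
    · right
      exact le_trans hk2 (Nat.le_mul_of_pos_right k h)
  have hkL : k * L ≤ k * (L + δ) := by omega
  simp only [F1, F2, hδ]
  rcases hcase with h | h
  · subst h
    constructor
    · split_ifs <;> omega
    · split_ifs <;> omega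
  · constructor
    · split_ifs <;> omega
    · split_ifs <;> omega

end Pool.Agent.Results.MP_88cfb8_co.QuasiPeriodic
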